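import Mathlib

set_option autoImplicit false

namespace Pool.Agent.Lib.MP_2049a1_lc

/-- A gate: an input variable, or a NOT / unbounded fan-in AND / unbounded fan-in OR of earlier
gates, which are referred to by their position in the list of earlier gates. -/
inductive Gate (ι : Type) where
  | input (i : ι)
  | not (j : ℕ)
  | and (S : List ℕ)
  | or (S : List ℕ)

/-- A Boolean circuit: the list of its gates, latest gate first; the head is the output gate. -/
abbrev Circuit (ι : Type) : Type := List (Gate ι)

/-- The values of all gates on the input x. -/
def vals {ι : Type} (x : ι → Bool) : Circuit ι → List Bool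
  | [] => []
  | Gate.input i :: C => x i :: vals x C
  | Gate.not j :: C => (!(vals x C).getD j false) :: vals x C
  | Gate.and S :: C => (S.all fun j => (vals x C).getD j false) :: vals x C
  | Gate.or S :: C => (S.any fun j => (vals x C).getD j false) :: vals x C

/-- The depths of all gates. -/
def depths {ι : Type} : Circuit ι → List ℕ
  | [] => []
  | Gate.input _ :: C => 0 :: depths C
  | Gate.not j :: C => ((depths C).getD j 0 + 1) :: depths C
  | Gate.and S :: C => ((S.map fun j => (depths C).getD j 0).foldr max 0 + 1) :: depths C
  | Gate.or S :: C => ((S.map fun j => (depths C).getD j 0).foldr max 0 + 1) :: depths C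

/-- There is a directed walk from the first vertex to the second whose label is the word. -/
inductive Labelled {V A : Type} (E : V → V → Option A) : V → V → List A → Prop where
  | nil (u : V) : Labelled E u u []
  | cons {u v t : V} {a : A} {w : List A} : E u v = some a → Labelled E v t w →
      Labelled E u t (a :: w)

/-- The bits of an instance on n vertices: k bits for each entry of the labelled adjacency matrix,
then the indicator bits of s and of t. -/
def encode {A : Type} {n k : ℕ} (code : Option A → Fin k → Bool) (E : Fin n → Fin n → Option A)
    (s t : Fin n) : (Fin n × Fin n × Fin k) ⊕ Fin n ⊕ Fin n → Bool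
  | Sum.inl (u, v, j) => code (E u v) j
  | Sum.inr (Sum.inl u) => decide (u = s)
  | Sum.inr (Sum.inr u) => decide (u = t)

end Pool.Agent.Lib.MP_2049a1_lc
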