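import Mathlib
import Pool.Agent.Lib.MP_2049a1_lc.Defs

set_option autoImplicit false

open Finset

namespace Pool.Agent.Lib.MP_2049a1_lc

abbrev F3 : Type := ZMod 3
abbrev Cube (n : ℕ) : Type := Fin n → Bool

def sg (b : Bool) : F3 := if b then -1 else 1
def bz (b : Bool) : F3 := if b then 1 else 0

theorem sg_mul_self (b : Bool) : sg b * sg b = 1 := by cases b <;> decide

variable {n : ℕ}

def chi (S : Finset (Fin n)) : Cube n → F3 := fun x => ∏ i, if i ∈ S then sg (x i) else 1

theorem chi_mul (S T : Finset (Fin n)) : chi S * chi T = chi (symmDiff S T) := by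
  ext x
  simp only [chi, Pi.mul_apply, ← Finset.prod_mul_distrib]
  refine Finset.prod_congr rfl fun i _ => ?_
  by_cases hS : i ∈ S <;> by_cases hT : i ∈ T <;> simp [hS, hT, Finset.mem_symmDiff, sg_mul_self]

theorem chi_empty : chi (∅ : Finset (Fin n)) = 1 := by
  ext x; simp [chi]

theorem chi_single (i : Fin n) : chi {i} = fun x => sg (x i) := by
  ext x; simp [chi]

/-- functions of degree at most D -/
def P (n D : ℕ) : Submodule F3 (Cube n → F3) :=
  Submodule.span F3 {f | ∃ S : Finset (Fin n), S.card ≤ D ∧ f = chi S}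

theorem chi_mem {D : ℕ} {S : Finset (Fin n)} (h : S.card ≤ D) : chi S ∈ P n D :=
  Submodule.subset_span ⟨S, h, rfl⟩

theorem one_mem_P (D : ℕ) : (1 : Cube n → F3) ∈ P n D := by
  rw [← chi_empty]; exact chi_mem (by simp)

theorem P_mono {D D' : ℕ} (h : D ≤ D') : P n D ≤ P n D' :=
  Submodule.span_mono fun _ ⟨S, hS, e⟩ => ⟨S, hS.trans h, e⟩

theorem card_symmDiff_le (S T : Finset (Fin n)) : (symmDiff S T).card ≤ S.card + T.card :=
  (Finset.card_le_card symmDiff_le_sup).trans (Finset.card_union_le S T)

theorem mul_mem_P {D D' : ℕ} {f g : Cube n → F3} (hf : f ∈ P n D) (hg : g ∈ P n D') :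
    f * g ∈ P n (D + D') := by
  induction hf using Submodule.span_induction with
  | mem f h =>
    obtain ⟨S, hS, rfl⟩ := h
    induction hg using Submodule.span_induction with
    | mem g h =>
      obtain ⟨T, hT, rfl⟩ := h
      rw [chi_mul]
      exact chi_mem ((card_symmDiff_le S T).trans (Nat.add_le_add hS hT))
    | zero => simp
    | add a b _ _ ha hb => rw [mul_add]; exact add_mem ha hb
    | smul c a _ ha => rw [mul_smul_comm]; exact Submodule.smul_mem _ _ ha
  | zero => simp
  | add a b _ _ ha hb => rw [add_mul]; exact add_mem ha hb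
  | smul c a _ ha => rw [smul_mul_assoc]; exact Submodule.smul_mem _ _ ha

theorem const_mem_P (D : ℕ) (c : F3) : (fun _ => c : Cube n → F3) ∈ P n D := by
  have : (fun _ => c : Cube n → F3) = c • (1 : Cube n → F3) := by ext; simp
  rw [this]; exact Submodule.smul_mem _ _ (one_mem_P D)

theorem junta_mem_P (φ : Bool → F3) (i : Fin n) : (fun x => φ (x i) : Cube n → F3) ∈ P n 1 := by
  have : (fun x => φ (x i) : Cube n → F3) =
      (-(φ true + φ false)) • (1 : Cube n → F3) + (φ true - φ false) • chi {i} := by
    ext x
    have h3 : (3 : F3) = 0 := by decide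
    simp only [chi_single, Pi.add_apply, Pi.smul_apply, smul_eq_mul, Pi.one_apply, sg]
    cases x i
    · simp only [Bool.false_eq_true, if_false]
      linear_combination (φ false) * h3
    · simp only [if_true]
      linear_combination (φ true) * h3
  rw [this]
  exact add_mem (Submodule.smul_mem _ _ (one_mem_P 1))
    (Submodule.smul_mem _ _ (chi_mem (by simp)))

theorem prod_mem_P (s : Finset (Fin n)) (f : Fin n → Cube n → F3) (hf : ∀ i, f i ∈ P n 1) :
    ∏ i ∈ s, f i ∈ P n s.card := by
  induction s using Finset.induction_on with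
  | empty => simpa using one_mem_P 0
  | insert i s hi ih =>
    rw [Finset.prod_insert hi, Finset.card_insert_of_notMem hi, add_comm]
    exact mul_mem_P (hf i) ih

theorem mem_P_top (f : Cube n → F3) : f ∈ P n n := by
  have : f = ∑ a : Cube n, f a • ∏ i, (fun x : Cube n => if x i = a i then (1 : F3) else 0) := by
    ext x
    simp only [Finset.sum_apply, Pi.smul_apply, Finset.prod_apply, smul_eq_mul]
    rw [Finset.sum_eq_single x]
    · simp
    · intro a _ ha
      obtain ⟨i, hi⟩ := Function.ne_iff.1 ha
      rw [Finset.prod_eq_zero (Finset.mem_univ i) (by simp [Ne.symm hi]), mul_zero]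
    · simp
  rw [this]
  refine Submodule.sum_mem _ fun a _ => Submodule.smul_mem _ _ ?_
  have := prod_mem_P Finset.univ (fun i => fun x : Cube n => if x i = a i then (1 : F3) else 0)
    (fun i => junta_mem_P (fun b => if b = a i then 1 else 0) i)
  simpa using this

/-- one linear combination vanishes on at most half of the points where some function is nonzero -/
theorem halving {D : ℕ} (v : ℕ → Cube n → F3) (S : List ℕ) (hv : ∀ j ∈ S, v j ∈ P n D)
    (X : Finset (Cube n)) (hX : ∀ x ∈ X, ∃ j ∈ S, v j x ≠ 0) :
    ∃ s ∈ P n D, (∀ x, (∀ j ∈ S, v j x = 0) → s x = 0) ∧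
      2 * (X.filter fun x => s x = 0).card ≤ X.card := by
  induction S generalizing X with
  | nil =>
    refine ⟨0, zero_mem _, fun _ _ => rfl, ?_⟩
    have : X = ∅ := Finset.eq_empty_of_forall_notMem fun x hx => by simpa using hX x hx
    simp [this]
  | cons j S ih =>
    obtain ⟨s, hs, hs0, hc⟩ := ih (fun i hi => hv i (List.mem_cons_of_mem _ hi))
      (X.filter fun x => v j x = 0) (by
        intro x hx
        rw [Finset.mem_filter] at hx
        obtain ⟨i, hi, h⟩ := hX x hx.1
        rcases List.mem_cons.1 hi with rfl | hi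
        · exact absurd hx.2 h
        · exact ⟨i, hi, h⟩)
    set X0 := X.filter fun x => v j x = 0 with hX0
    set X1 := X.filter fun x => ¬ v j x = 0 with hX1
    have hsplit : X0.card + X1.card = X.card := Finset.card_filter_add_card_filter_not _
    have hdisj : (X1.filter fun x => s x = 0).card + (X1.filter fun x => (s + v j) x = 0).card
        ≤ X1.card := by
      rw [← Finset.card_union_of_disjoint]
      · exact Finset.card_le_card (Finset.union_subset (Finset.filter_subset _ _)
          (Finset.filter_subset _ _))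
      · rw [Finset.disjoint_left]
        intro x h1 h2
        simp only [hX1, Finset.mem_filter, Pi.add_apply] at h1 h2
        rw [h1.2, zero_add] at h2
        exact h1.1.2 h2.2
    have key : ∀ t : Cube n → F3, (∀ x, v j x = 0 → t x = s x) →
        (X.filter fun x => t x = 0).card =
          (X0.filter fun x => s x = 0).card + (X1.filter fun x => t x = 0).card := by
      intro t ht
      rw [← Finset.card_filter_add_card_filter_not (s := X.filter fun x => t x = 0)
        (fun x => v j x = 0)]
      congr 2
      · ext x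
        simp only [hX0, Finset.mem_filter]
        constructor
        · rintro ⟨⟨h1, h2⟩, h3⟩; exact ⟨⟨h1, h3⟩, by rw [← ht x h3, h2]⟩
        · rintro ⟨⟨h1, h3⟩, h2⟩; exact ⟨⟨h1, by rw [ht x h3, h2]⟩, h3⟩
      · ext x
        simp only [hX1, Finset.mem_filter]
        tauto
    by_cases hcase : 2 * (X1.filter fun x => s x = 0).card ≤ X1.card
    · refine ⟨s, hs, fun x hx => hs0 x fun i hi => hx i (List.mem_cons_of_mem _ hi), ?_⟩
      rw [key s fun _ _ => rfl]; omega
    · refine ⟨s + v j, add_mem hs (hv j List.mem_cons_self), fun x hx => ?_, ?_⟩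
      · rw [Pi.add_apply, hs0 x fun i hi => hx i (List.mem_cons_of_mem _ hi),
          hx j List.mem_cons_self, add_zero]
      · rw [key (s + v j) fun x hx => by simp [hx]]; omega

/-- low-degree approximation of NOR -/
theorem nor_approx {D : ℕ} (v : ℕ → Cube n → F3) (S : List ℕ) (hv : ∀ j ∈ S, v j ∈ P n D)
    (l : ℕ) : ∃ q ∈ P n (2 * l * D), ∃ E : Finset (Cube n), 2 ^ l * E.card ≤ 2 ^ n ∧
      (∀ x, (∀ j ∈ S, v j x = 0) → q x = 1) ∧
      (∀ x ∈ E, ∃ j ∈ S, v j x ≠ 0) ∧
      (∀ x, x ∉ E → (∃ j ∈ S, v j x ≠ 0) → q x = 0) := by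
  induction l with
  | zero =>
    refine ⟨1, one_mem_P _, Finset.univ.filter fun x => ∃ j ∈ S, v j x ≠ 0, ?_, fun _ _ => rfl,
      fun x hx => (Finset.mem_filter.1 hx).2, fun x hx h => absurd ?_ hx⟩
    · have := Finset.card_le_univ (Finset.univ.filter fun x : Cube n => ∃ j ∈ S, v j x ≠ 0)
      simpa using this
    · exact Finset.mem_filter.2 ⟨Finset.mem_univ _, h⟩
  | succ l ih =>
    obtain ⟨q, hq, E, hE, h1, h2, h3⟩ := ih
    obtain ⟨s, hs, hs0, hc⟩ := halving v S hv E h2
    refine ⟨q * (1 - s * s), ?_, E.filter fun x => s x = 0, ?_, ?_, ?_, ?_⟩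
    · have : 2 * (l + 1) * D = 2 * l * D + (D + D) := by ring
      rw [this]
      exact mul_mem_P hq (sub_mem (one_mem_P _) (mul_mem_P hs hs))
    · calc 2 ^ (l + 1) * (E.filter fun x => s x = 0).card
          = 2 ^ l * (2 * (E.filter fun x => s x = 0).card) := by ring
        _ ≤ 2 ^ l * E.card := Nat.mul_le_mul_left _ hc
        _ ≤ 2 ^ n := hE
    · intro x hx
      simp [h1 x hx, hs0 x hx]
    · intro x hx
      exact h2 x (Finset.mem_filter.1 hx).1
    · intro x hx h
      by_cases hxE : x ∈ E
      · have hs1 : s x ≠ 0 := fun h0 => hx (Finset.mem_filter.2 ⟨hxE, h0⟩)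
        have : ∀ z : F3, z ≠ 0 → 1 - z * z = 0 := by decide
        simp [this _ hs1]
      · simp [h3 x hxE h]

theorem le_foldr_max (L : List ℕ) {a : ℕ} (h : a ∈ L) : a ≤ L.foldr max 0 := by
  induction L with
  | nil => simp at h
  | cons b L ih =>
    rcases List.mem_cons.1 h with rfl | h
    · simp
    · exact (ih h).trans (by simp)

theorem bz_ne_zero {b : Bool} : bz b ≠ 0 ↔ b = true := by cases b <;> decide
theorem one_sub_bz_ne_zero {b : Bool} : 1 - bz b ≠ 0 ↔ b = false := by cases b <;> decide

/-- Razborov approximation of all gates of a circuit -/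
theorem circuit_approx {ι : Type} (inp : Cube n → ι → Bool)
    (hinp : ∀ i, (fun x => bz (inp x i)) ∈ P n 1) (l : ℕ) (hl : 1 ≤ l) (C : Circuit ι) :
    ∃ p : ℕ → Cube n → F3, ∃ E : Finset (Cube n), 2 ^ l * E.card ≤ C.length * 2 ^ n ∧
      (∀ j, p j ∈ P n ((2 * l) ^ (depths C).getD j 0)) ∧
      (∀ x, x ∉ E → ∀ j, p j x = bz ((vals (inp x) C).getD j false)) := by
  induction C with
  | nil => exact ⟨0, ∅, by simp, fun _ => zero_mem _, fun x _ j => by simp [vals, bz]⟩
  | cons g C ih =>
    obtain ⟨p, E, hE, hp, hv⟩ := ih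
    have hpow : ∀ {a b : ℕ}, a ≤ b → (2 * l) ^ a ≤ (2 * l) ^ b :=
      fun h => Nat.pow_le_pow_right (by omega) h
    have step : ∀ (q : Cube n → F3) (E' : Finset (Cube n)) (e : ℕ) (b : Cube n → Bool),
        2 ^ l * E'.card ≤ 2 ^ n → q ∈ P n ((2 * l) ^ e) → depths (g :: C) = e :: depths C →
        (∀ x, vals (inp x) (g :: C) = b x :: vals (inp x) C) →
        (∀ x, x ∉ E → x ∉ E' → q x = bz (b x)) →
        ∃ p : ℕ → Cube n → F3, ∃ E : Finset (Cube n),
          2 ^ l * E.card ≤ (g :: C).length * 2 ^ n ∧
          (∀ j, p j ∈ P n ((2 * l) ^ (depths (g :: C)).getD j 0)) ∧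
          (∀ x, x ∉ E → ∀ j, p j x = bz ((vals (inp x) (g :: C)).getD j false)) := by
      intro q E' e b hE' hq hd hb hqb
      refine ⟨fun j => Nat.casesOn j q p, E ∪ E', ?_, ?_, ?_⟩
      · calc 2 ^ l * (E ∪ E').card ≤ 2 ^ l * (E.card + E'.card) :=
              Nat.mul_le_mul_left _ (Finset.card_union_le _ _)
          _ ≤ C.length * 2 ^ n + 2 ^ n := by rw [mul_add]; exact Nat.add_le_add hE hE'
          _ = (g :: C).length * 2 ^ n := by rw [List.length_cons]; ring
      · intro j
        rw [hd]
        cases j with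
        | zero => simpa using hq
        | succ j => simpa using hp j
      · intro x hx j
        rw [Finset.mem_union, not_or] at hx
        rw [hb]
        cases j with
        | zero => simpa using hqb x hx.1 hx.2
        | succ j => simpa using hv x hx.1 j
    cases g with
    | input i =>
      exact step (fun x => bz (inp x i)) ∅ 0 (fun x => inp x i) (by simp) (by simpa using hinp i)
        rfl (fun _ => rfl) (fun _ _ _ => rfl)
    | not j =>
      refine step (1 - p j) ∅ _ _ (by simp) ?_ rfl (fun _ => rfl) ?_
      · exact sub_mem (one_mem_P _) (P_mono (hpow (Nat.le_succ _)) (hp j))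
      · intro x hx _
        rw [Pi.sub_apply, hv x hx j, Pi.one_apply]
        cases (vals (inp x) C).getD j false <;> decide
    | and S =>
      set m := (S.map fun j => (depths C).getD j 0).foldr max 0 with hm
      obtain ⟨q, hq, E', hE', h1, -, h3⟩ := nor_approx (D := (2 * l) ^ m) (fun j => 1 - p j) S
        (fun j hj => sub_mem (one_mem_P _) (P_mono (hpow
          (le_foldr_max _ (List.mem_map.2 ⟨j, hj, rfl⟩))) (hp j))) l
      refine step q E' (m + 1) _ hE' (by rwa [pow_succ']) rfl (fun _ => rfl) ?_
      intro x hx hx'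
      by_cases h : ∃ j ∈ S, (1 - p j) x ≠ 0
      · rw [h3 x hx' h]
        obtain ⟨j, hj, h⟩ := h
        rw [Pi.sub_apply, hv x hx j, Pi.one_apply, one_sub_bz_ne_zero] at h
        have : (S.all fun j => (vals (inp x) C).getD j false) = false := by
          rw [List.all_eq_false]; exact ⟨j, hj, by rw [h]; simp⟩
        rw [this]; rfl
      · push Not at h
        rw [h1 x h]
        have : (S.all fun j => (vals (inp x) C).getD j false) = true := by
          rw [List.all_eq_true]
          intro j hj
          have := h j hj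
          rw [Pi.sub_apply, hv x hx j, Pi.one_apply] at this
          by_contra hc
          exact (one_sub_bz_ne_zero.2 (by simpa using hc)) this
        rw [this]; rfl
    | or S =>
      set m := (S.map fun j => (depths C).getD j 0).foldr max 0 with hm
      obtain ⟨q, hq, E', hE', h1, -, h3⟩ := nor_approx (D := (2 * l) ^ m) p S
        (fun j hj => P_mono (hpow
          (le_foldr_max _ (List.mem_map.2 ⟨j, hj, rfl⟩))) (hp j)) l
      refine step (1 - q) E' (m + 1) _ hE' (sub_mem (one_mem_P _) (by rwa [pow_succ'])) rfl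
        (fun _ => rfl) ?_
      intro x hx hx'
      by_cases h : ∃ j ∈ S, p j x ≠ 0
      · rw [Pi.sub_apply, h3 x hx' h, Pi.one_apply]
        obtain ⟨j, hj, h⟩ := h
        rw [hv x hx j, bz_ne_zero] at h
        have : (S.any fun j => (vals (inp x) C).getD j false) = true := by
          rw [List.any_eq_true]; exact ⟨j, hj, h⟩
        rw [this]; decide
      · push Not at h
        rw [Pi.sub_apply, h1 x h, Pi.one_apply]
        have : (S.any fun j => (vals (inp x) C).getD j false) = false := by
          rw [List.any_eq_false]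
          intro j hj hc
          have := h j hj
          rw [hv x hx j] at this
          exact (bz_ne_zero.2 hc) this
        rw [this]; decide

/-- Smolensky: a set on which parity has low degree is small -/
theorem card_le_of_parity {D : ℕ} (G : Finset (Cube n)) (p : Cube n → F3) (hp : p ∈ P n D)
    (hG : ∀ x ∈ G, p x = chi Finset.univ x) :
    G.card ≤ (Finset.univ.filter fun S : Finset (Fin n) => 2 * S.card ≤ n + D).card := by
  classical
  let r : (Cube n → F3) →ₗ[F3] (G → F3) := LinearMap.funLeft F3 F3 (fun x : G => (x : Cube n))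
  let b : {S : Finset (Fin n) // 2 * S.card ≤ n + D} → (G → F3) := fun S => r (chi S.1)
  have hT : ∀ f ∈ P n ((n + D) / 2), r f ∈ Submodule.span F3 (Set.range b) := by
    intro f hf
    induction hf using Submodule.span_induction with
    | mem f h =>
      obtain ⟨S, hS, rfl⟩ := h
      exact Submodule.subset_span ⟨⟨S, by omega⟩, rfl⟩
    | zero => simp
    | add a b _ _ ha hb => rw [map_add]; exact add_mem ha hb
    | smul c a _ ha => rw [map_smul]; exact Submodule.smul_mem _ _ ha
  have hall : ∀ f, r f ∈ Submodule.span F3 (Set.range b) := by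
    intro f
    have hf := mem_P_top f
    induction hf using Submodule.span_induction with
    | mem f h =>
      obtain ⟨S, hS, rfl⟩ := h
      by_cases h2 : 2 * S.card ≤ n + D
      · exact hT _ (chi_mem (by omega))
      · have e : r (chi S) = r (p * chi Sᶜ) := by
          ext x
          have h1 : chi S = chi Finset.univ * chi Sᶜ := by
            rw [chi_mul]; congr 1; ext i; simp [Finset.mem_symmDiff]
          simp only [r, LinearMap.funLeft_apply, Pi.mul_apply]
          rw [h1, Pi.mul_apply, hG x x.2]
        rw [e]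
        refine hT _ (P_mono ?_ (mul_mem_P hp (chi_mem le_rfl)))
        rw [Finset.card_compl, Fintype.card_fin]
        omega
    | zero => simp
    | add a b _ _ ha hb => rw [map_add]; exact add_mem ha hb
    | smul c a _ ha => rw [map_smul]; exact Submodule.smul_mem _ _ ha
  have htop : Submodule.span F3 (Set.range b) = ⊤ := by
    rw [eq_top_iff]
    intro f _
    obtain ⟨g, rfl⟩ := LinearMap.funLeft_surjective_of_injective F3 F3
      (fun x : G => (x : Cube n)) Subtype.val_injective f
    exact hall g
  have := finrank_le_of_span_eq_top htop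
  rw [Module.finrank_fintype_fun_eq_card, Fintype.card_coe, Fintype.card_subtype] at this
  exact this

end Pool.Agent.Lib.MP_2049a1_lc
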