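import Mathlib
import Pool.Agent.Lib.MP_2049a1_lc.Defs
import Pool.Agent.Lib.MP_2049a1_lc.RS

set_option autoImplicit false

open Finset Filter

namespace Pool.Agent.Lib.MP_2049a1_lc

theorem centralBinom_sq (m : ℕ) : Nat.centralBinom m ^ 2 * (2 * m + 1) ≤ 16 ^ m := by
  induction m with
  | zero => simp
  | succ m ih =>
    have h := Nat.succ_mul_centralBinom_succ m
    have hpos : 0 < (m + 1) ^ 2 := by positivity
    refine Nat.le_of_mul_le_mul_left ?_ hpos
    calc (m + 1) ^ 2 * (Nat.centralBinom (m + 1) ^ 2 * (2 * (m + 1) + 1))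
        = ((m + 1) * Nat.centralBinom (m + 1)) ^ 2 * (2 * m + 3) := by ring
      _ = 4 * ((2 * m + 1) * (2 * m + 3)) * (Nat.centralBinom m ^ 2 * (2 * m + 1)) := by
          rw [h]; ring
      _ ≤ 4 * (4 * (m + 1) ^ 2) * 16 ^ m := by
          have h' : (2 * m + 1) * (2 * m + 3) ≤ 4 * (m + 1) ^ 2 := by nlinarith
          exact Nat.mul_le_mul (Nat.mul_le_mul_left _ h') ih
      _ = (m + 1) ^ 2 * 16 ^ (m + 1) := by ring

theorem middle_sq (n : ℕ) : n.choose (n / 2) ^ 2 * n ≤ 4 ^ n := by
  obtain ⟨m, rfl | rfl⟩ := Nat.even_or_odd' n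
  · have h := centralBinom_sq m
    rw [Nat.centralBinom_eq_two_mul_choose] at h
    rw [show 2 * m / 2 = m by omega, pow_mul]
    exact le_trans (Nat.mul_le_mul_left _ (Nat.le_succ _)) h
  · have h := centralBinom_sq m
    rw [Nat.centralBinom_eq_two_mul_choose] at h
    rw [show (2 * m + 1) / 2 = m by omega]
    have h2 : (2 * m + 1).choose m ≤ 2 * (2 * m).choose m := by
      have hm : ∀ i, (2 * m).choose i ≤ (2 * m).choose m := fun i => by
        have := Nat.choose_le_middle i (2 * m)
        rwa [show 2 * m / 2 = m by omega] at this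
      cases m with
      | zero => simp
      | succ m =>
        rw [Nat.choose_succ_succ, two_mul ((2 * (m + 1)).choose (m + 1))]
        exact Nat.add_le_add (hm _) (hm _)
    calc (2 * m + 1).choose m ^ 2 * (2 * m + 1) ≤ (2 * (2 * m).choose m) ^ 2 * (2 * m + 1) := by
          gcongr
      _ = 4 * ((2 * m).choose m ^ 2 * (2 * m + 1)) := by ring
      _ ≤ 4 * 16 ^ m := by gcongr
      _ = 4 ^ (2 * m + 1) := by rw [pow_succ, pow_mul]; ring

theorem count_small (n D : ℕ) :
    2 * (Finset.univ.filter fun S : Finset (Fin n) => 2 * S.card ≤ n + D).card ≤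
      2 ^ n + 2 * ((D + 1) * n.choose (n / 2)) := by
  set A := Finset.univ.filter fun S : Finset (Fin n) => 2 * S.card < n with hA
  set B := Finset.univ.filter fun S : Finset (Fin n) => n < 2 * S.card with hB
  have hAB : A.card = B.card := by
    refine Finset.card_bij (fun S _ => Sᶜ) ?_ ?_ ?_
    · intro S hS
      simp only [hA, hB, Finset.mem_filter, Finset.mem_univ, true_and] at hS ⊢
      rw [Finset.card_compl, Fintype.card_fin]; omega
    · intro S _ T _ h; exact compl_injective h
    · intro T hT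
      refine ⟨Tᶜ, ?_, compl_compl T⟩
      simp only [hA, hB, Finset.mem_filter, Finset.mem_univ, true_and] at hT ⊢
      have := Finset.card_le_univ T
      rw [Fintype.card_fin] at this
      rw [Finset.card_compl, Fintype.card_fin]; omega
  have h2 : A.card + B.card ≤ 2 ^ n := by
    rw [← Finset.card_union_of_disjoint]
    · have := Finset.card_le_univ (A ∪ B)
      simpa using this
    · rw [Finset.disjoint_left]
      intro S h1 h2
      simp only [hA, hB, Finset.mem_filter, Finset.mem_univ, true_and] at h1 h2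
      omega
  have hsub : (Finset.univ.filter fun S : Finset (Fin n) => 2 * S.card ≤ n + D) ⊆
      A ∪ (Finset.range (D + 1)).biUnion
        fun i => Finset.powersetCard ((n + 1) / 2 + i) (Finset.univ : Finset (Fin n)) := by
    intro S hS
    simp only [hA, Finset.mem_filter, Finset.mem_univ, true_and, Finset.mem_union,
      Finset.mem_biUnion, Finset.mem_range, Finset.mem_powersetCard, Finset.subset_univ] at hS ⊢
    by_cases h : 2 * S.card < n
    · exact Or.inl h
    · exact Or.inr ⟨S.card - (n + 1) / 2, by omega, by omega⟩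
  have h3 : ((Finset.range (D + 1)).biUnion
      fun i => Finset.powersetCard ((n + 1) / 2 + i) (Finset.univ : Finset (Fin n))).card ≤
      (D + 1) * n.choose (n / 2) := by
    refine (Finset.card_biUnion_le_card_mul _ _ (n.choose (n / 2)) ?_).trans (by simp)
    intro i _
    rw [Finset.card_powersetCard, Finset.card_univ, Fintype.card_fin]
    exact Nat.choose_le_middle _ _
  have h4 := (Finset.card_le_card hsub).trans (Finset.card_union_le _ _)
  omega

/-- the parity lower bound -/
theorem parity_bound {ι : Type} {n : ℕ} (inp : Cube n → ι → Bool)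
    (hinp : ∀ i, (fun x => bz (inp x i)) ∈ P n 1) (C : Circuit ι) (d l : ℕ) (hl : 1 ≤ l)
    (hd : (depths C).getD 0 0 ≤ d) (hs : 4 * C.length ≤ 2 ^ l)
    (hC : ∀ x, chi Finset.univ x = 2 * bz ((vals (inp x) C).getD 0 false) - 1) :
    n ≤ 16 * ((2 * l) ^ d + 1) ^ 2 := by
  obtain ⟨p, E, hE, hp, hv⟩ := circuit_approx inp hinp l hl C
  set D := (2 * l) ^ d with hD
  have hp0 : p 0 ∈ P n D := P_mono (Nat.pow_le_pow_right (by omega) hd) (hp 0)
  have hq : (2 : F3) • p 0 - 1 ∈ P n D := sub_mem (Submodule.smul_mem _ _ hp0) (one_mem_P _)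
  have h1 := card_le_of_parity Eᶜ _ hq (by
    intro x hx
    rw [hC x, ← hv x (Finset.mem_compl.1 hx) 0]
    simp)
  have h2 := count_small n D
  have h3 : 4 * E.card ≤ 2 ^ n := by
    have hpos : 0 < 2 ^ l := by positivity
    refine Nat.le_of_mul_le_mul_left ?_ hpos
    calc 2 ^ l * (4 * E.card) = 4 * (2 ^ l * E.card) := by ring
      _ ≤ 4 * (C.length * 2 ^ n) := by gcongr
      _ = (4 * C.length) * 2 ^ n := by ring
      _ ≤ 2 ^ l * 2 ^ n := by gcongr
  have h4 : Eᶜ.card + E.card = 2 ^ n := by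
    rw [Finset.card_compl_add_card]; simp
  have h5 : 2 ^ n ≤ 4 * ((D + 1) * n.choose (n / 2)) := by omega
  have h6 := middle_sq n
  have hpos : 0 < 4 ^ n := by positivity
  refine Nat.le_of_mul_le_mul_left ?_ hpos
  calc 4 ^ n * n = (2 ^ n) ^ 2 * n := by rw [← pow_mul, mul_comm n 2, pow_mul]; norm_num
    _ ≤ (4 * ((D + 1) * n.choose (n / 2))) ^ 2 * n := by gcongr
    _ = 16 * (D + 1) ^ 2 * (n.choose (n / 2) ^ 2 * n) := by ring
    _ ≤ 16 * (D + 1) ^ 2 * 4 ^ n := by gcongr
    _ = 4 ^ n * (16 * (D + 1) ^ 2) := by ring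

section Reduction

variable {A : Type}

def xb {n : ℕ} (x : Cube n) (i : ℕ) : ℕ := if h : i < n then (if x ⟨i, h⟩ then 1 else 0) else 0

def cnt {n : ℕ} (x : Cube n) (i : ℕ) : ℕ := ∑ j ∈ Finset.range i, xb x j

/-- the layered graph of width two -/
def graph (w : List A) (x : Cube w.length) (u v : Fin (2 * w.length + 2)) : Option A :=
  if v.1 / 2 = u.1 / 2 + 1 ∧ v.1 % 2 = (u.1 + xb x (u.1 / 2)) % 2 then w[u.1 / 2]? else none

theorem graph_walk (w : List A) (x : Cube w.length) {u v : Fin (2 * w.length + 2)} {w' : List A}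
    (h : Labelled (graph w x) u v w') :
    v.1 / 2 = u.1 / 2 + w'.length ∧ (v.1 + cnt x (v.1 / 2)) % 2 = (u.1 + cnt x (u.1 / 2)) % 2 := by
  induction h with
  | nil u => simp
  | @cons u v t a w' he _ ih =>
    unfold graph at he
    split_ifs at he with hc
    obtain ⟨h1, h2⟩ := hc
    refine ⟨by rw [List.length_cons]; omega, ?_⟩
    rw [ih.2, h1, cnt, Finset.sum_range_succ, ← cnt]
    omega

theorem graph_path (w : List A) (x : Cube w.length) (m : ℕ) (hm : m ≤ w.length) :
    Labelled (graph w x) ⟨2 * (w.length - m) + cnt x (w.length - m) % 2, by omega⟩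
      ⟨2 * w.length + cnt x w.length % 2, by omega⟩ (w.drop (w.length - m)) := by
  induction m with
  | zero => simpa using Labelled.nil _
  | succ m ih =>
    have hi : w.length - (m + 1) < w.length := by omega
    rw [List.drop_eq_getElem_cons hi]
    have e : w.length - (m + 1) + 1 = w.length - m := by omega
    rw [e]
    refine Labelled.cons ?_ (ih (by omega))
    unfold graph
    have e1 : (2 * (w.length - (m + 1)) + cnt x (w.length - (m + 1)) % 2) / 2
        = w.length - (m + 1) := by omega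
    have e2 : cnt x (w.length - m) = cnt x (w.length - (m + 1)) + xb x (w.length - (m + 1)) := by
      rw [← e, cnt, Finset.sum_range_succ, ← cnt]
    simp only [e1]
    rw [if_pos ⟨by omega, by omega⟩]
    exact List.getElem?_eq_getElem hi

theorem chi_univ {n : ℕ} (x : Cube n) : chi Finset.univ x = (-1) ^ cnt x n := by
  unfold chi cnt
  rw [← Finset.prod_pow_eq_pow_sum, Finset.prod_range]
  refine Finset.prod_congr rfl fun i _ => ?_
  simp only [Finset.mem_univ, if_true, xb, i.2, dif_pos, sg]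
  split_ifs <;> simp

theorem encode_deg {k : ℕ} (code : Option A → Fin k → Bool) (w : List A)
    (s t : Fin (2 * w.length + 2))
    (i : (Fin (2 * w.length + 2) × Fin (2 * w.length + 2) × Fin k) ⊕
      Fin (2 * w.length + 2) ⊕ Fin (2 * w.length + 2)) :
    (fun x => bz (encode code (graph w x) s t i)) ∈ P w.length 1 := by
  rcases i with ⟨u, v, j⟩ | u | u
  · by_cases h : u.1 / 2 < w.length
    · have := junta_mem_P (fun b => bz (code (if v.1 / 2 = u.1 / 2 + 1 ∧
        v.1 % 2 = (u.1 + (if b then 1 else 0)) % 2 then w[u.1 / 2]? else none) j)) ⟨_, h⟩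
      simpa [encode, graph, xb, h] using this
    · have := const_mem_P (n := w.length) 1 (bz (code (if v.1 / 2 = u.1 / 2 + 1 ∧
        v.1 % 2 = (u.1 + 0) % 2 then w[u.1 / 2]? else none) j))
      simpa [encode, graph, xb, h] using this
  · exact const_mem_P 1 (bz (decide (u = s)))
  · exact const_mem_P 1 (bz (decide (u = t)))

end Reduction

theorem eventually_big (c d : ℕ) :
    ∃ J, ∀ j ≥ J, 16 * ((2 * (c * (j + 4) + 3)) ^ d + 1) ^ 2 < 2 ^ j := by
  have h := (isLittleO_pow_const_const_pow_of_one_lt (R := ℝ) (2 * d)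
    (show (1 : ℝ) < 2 by norm_num)).def
    (show (0 : ℝ) < 1 / (64 * (10 * c + 6) ^ (2 * d) + 1) by positivity)
  obtain ⟨J, hJ⟩ := eventually_atTop.1 h
  refine ⟨max J 1, fun j hj => ?_⟩
  have h1 := hJ j (le_trans (le_max_left _ _) hj)
  have hj1 : 1 ≤ j := le_trans (le_max_right _ _) hj
  rw [Real.norm_of_nonneg (by positivity), Real.norm_of_nonneg (by positivity),
    one_div, ← div_eq_inv_mul, le_div_iff₀ (by positivity)] at h1
  have h2 : j ^ (2 * d) * (64 * (10 * c + 6) ^ (2 * d) + 1) ≤ 2 ^ j := by exact_mod_cast h1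
  have h3 : 2 * (c * (j + 4) + 3) ≤ (10 * c + 6) * j := by nlinarith
  have h4 : (2 * (c * (j + 4) + 3)) ^ d + 1 ≤ 2 * ((10 * c + 6) * j) ^ d := by
    have a := Nat.pow_le_pow_left h3 d
    have b : 1 ≤ ((10 * c + 6) * j) ^ d := Nat.one_le_pow _ _ (by positivity)
    omega
  have h5 : 0 < j ^ (2 * d) := by positivity
  calc 16 * ((2 * (c * (j + 4) + 3)) ^ d + 1) ^ 2 ≤ 16 * (2 * ((10 * c + 6) * j) ^ d) ^ 2 := by
        gcongr
    _ = j ^ (2 * d) * (64 * (10 * c + 6) ^ (2 * d)) := by
        rw [mul_pow, mul_pow, mul_pow, ← pow_mul, ← pow_mul, mul_comm d 2]; ring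
    _ < j ^ (2 * d) * (64 * (10 * c + 6) ^ (2 * d) + 1) := by gcongr; omega
    _ ≤ 2 ^ j := h2

theorem size_le (c n : ℕ) :
    4 * (c * (2 * n + 2) ^ c + c) ≤ 2 ^ (c * (Nat.log 2 n + 4) + 3) := by
  set j := Nat.log 2 n
  have h1 : n < 2 ^ (j + 1) := Nat.lt_pow_succ_log_self (by norm_num) n
  have h2 : 2 * n + 2 ≤ 2 ^ (j + 3) := by
    have : 2 ^ (j + 3) = 4 * 2 ^ (j + 1) := by ring
    omega
  have h3 : c ≤ 2 ^ c := Nat.lt_two_pow_self.le
  have h4 : (2 * n + 2) ^ c ≤ 2 ^ ((j + 3) * c) := by
    rw [pow_mul]; exact Nat.pow_le_pow_left h2 c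
  have h5 : 1 ≤ 2 ^ ((j + 3) * c) := Nat.one_le_two_pow
  calc 4 * (c * (2 * n + 2) ^ c + c) ≤ 4 * (2 ^ c * 2 ^ ((j + 3) * c) + 2 ^ c * 2 ^ ((j + 3) * c)) := by
        gcongr
        nlinarith
    _ = 2 ^ (c * (j + 4) + 3) := by ring

theorem main (A : Type) [Finite A] (L : Set (List A)) (k : ℕ) (code : Option A → Fin k → Bool)
    (d c : ℕ) (C : (n : ℕ) → Circuit ((Fin n × Fin n × Fin k) ⊕ Fin n ⊕ Fin n))
    (hd : ∀ n, (depths (C n)).getD 0 0 ≤ d)
    (hs : ∀ n, (C n).length ≤ c * n ^ c + c)
    (hC : ∀ (n : ℕ) (E : Fin n → Fin n → Option A) (s t : Fin n),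
      (∀ u w, Labelled E u u w → w = []) →
      ((vals (encode code E s t) (C n)).getD 0 false = true ↔ ∃ w ∈ L, Labelled E s t w)) :
    L.Finite := by
  obtain ⟨J, hJ⟩ := eventually_big c d
  refine (List.finite_length_lt A (2 ^ J)).subset fun w hw => ?_
  by_contra hlen
  simp only [Set.mem_ofPred_eq, not_lt] at hlen
  set n := w.length with hn
  have hn0 : n ≠ 0 := by
    have : 0 < 2 ^ J := by positivity
    omega
  have hj : J ≤ Nat.log 2 n := Nat.le_log_of_pow_le (by norm_num) hlen
  have hbig := hJ _ hj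
  have hle : 2 ^ Nat.log 2 n ≤ n := Nat.pow_log_le_self 2 hn0
  let s : Fin (2 * w.length + 2) := ⟨0, by omega⟩
  let t : Fin (2 * w.length + 2) := ⟨2 * w.length, by omega⟩
  have := parity_bound (fun x => encode code (graph w x) s t) (encode_deg code w s t)
    (C (2 * w.length + 2)) d (c * (Nat.log 2 n + 4) + 3) (by omega) (hd _)
    (le_trans (Nat.mul_le_mul_left 4 (hs _)) (size_le c n)) (by
      intro x
      have hac : ∀ u w', Labelled (graph w x) u u w' → w' = [] := by
        intro u w' h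
        have := (graph_walk w x h).1
        exact List.length_eq_zero_iff.1 (by omega)
      have hiff := hC _ (graph w x) s t hac
      rw [chi_univ]
      rcases Nat.even_or_odd (cnt x w.length) with he | ho
      · have hp := graph_path w x w.length le_rfl
        have e0 : cnt x w.length % 2 = 0 := Nat.even_iff.1 he
        simp only [Nat.sub_self, List.drop_zero, cnt, Finset.range_zero,
          Finset.sum_empty] at hp
        rw [hiff.2 ⟨w, hw, by simpa [s, t, ← cnt.eq_1, e0] using hp⟩, he.neg_one_pow]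
        decide
      · have hf : (vals (encode code (graph w x) s t) (C (2 * w.length + 2))).getD 0 false
            = false := by
          by_contra hne
          obtain ⟨w', -, h⟩ := hiff.1 (by simpa using hne)
          have h2 := (graph_walk w x h).2
          have e1 : cnt x w.length % 2 = 1 := Nat.odd_iff.1 ho
          simp only [s, t, Nat.zero_div, Nat.mul_div_cancel_left _ (show 0 < 2 by norm_num)] at h2
          have e2 : cnt x 0 = 0 := by simp [cnt]
          omega
        rw [hf, ho.neg_one_pow]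
        decide)
  omega

end Pool.Agent.Lib.MP_2049a1_lc
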